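import Pool.Agent.EDX.Stmts3

/-!
# Squad EDX (MP_74088a_nt), row TBM (helper39)
-/

set_option autoImplicit false

namespace Pool.Agent.EDX.H39

open Polynomial Finset Pool.Agent.EDG Module

/-- the Lagrange factor -/
private noncomputable def Lg {N : ℕ} (ζ : Fin N → ℂ) (y : ℂ) (l : Fin N) : ℂ :=
  ∏ l' ∈ univ.erase l, ((y - ζ l') / (ζ l - ζ l'))

private theorem lagr {N : ℕ} (ζ : Fin N → ℂ) (hζ : Function.Injective ζ) (p : ℂ[X])
    (hp : p.degree < (N : WithBot ℕ)) (y : ℂ) :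
    ∑ l, p.eval (ζ l) * Lg ζ y l = p.eval y := by
  have h1 : Set.InjOn ζ ((univ : Finset (Fin N)) : Set (Fin N)) := hζ.injOn
  have h2 := Lagrange.eq_interpolate (f := p) h1 (by simpa using hp)
  have h3 := congrArg (eval y) h2
  rw [Lagrange.interpolate_apply, eval_finsetSum] at h3
  rw [h3]
  apply sum_congr rfl
  intro l _
  rw [eval_mul, eval_C, Lagrange.basis, eval_prod]
  unfold Lg
  congr 1
  apply prod_congr rfl
  intro l' _
  rw [Lagrange.basisDivisor, eval_mul, eval_C, eval_sub, eval_X, eval_C]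
  rw [div_eq_inv_mul]

private theorem ev_eq (b y : ℂ) (p : ℤ[X][X]) :
    ev b y p = (p.map (eval₂RingHom (Int.castRingHom ℂ) b)).eval y := by
  unfold ev
  rw [coe_eval₂RingHom, eval₂_eq_eval_map]

theorem tbm (hivb : IvbStmt) (hlgb : LgbStmt) (hvdm : VdmStmt) : TbmStmt := by
  intro b hb q
  obtain ⟨φ, hφ⟩ := hivb b hb q
  have h4 : (4 : ℂ) ∈ Metric.ball (4 : ℂ) 1 := Metric.mem_ball_self one_pos
  set ζ : Fin (2 ^ q) → ℂ := fun l => φ l 4 with hζdef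
  have hinj : Function.Injective ζ := fun l l' hl => hφ.2.2 4 h4 l l' hl
  have hit : ∀ l, b + it b (ζ l) q = 4 := fun l => hφ.2.1 l 4 h4
  obtain ⟨hV0, hV1⟩ := hvdm b hb q ζ hinj hit
  set V : Matrix (Fin (2 ^ q)) (Fin (2 ^ q)) ℂ :=
    Matrix.of fun e l : Fin (2 ^ q) => hv (2 ^ q) b (ζ l) e with hVdef
  have hpos : (0 : ℝ) < 6 * 2 ^ q := by positivity
  set s : ℝ := Real.sqrt (6 * 2 ^ q) with hs
  have hs0 : 0 < s := Real.sqrt_pos.mpr hpos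
  have hs2 : s ^ 2 = 6 * 2 ^ q := Real.sq_sqrt hpos.le
  have hsC : (s : ℂ) ≠ 0 := by exact_mod_cast hs0.ne'
  have hdet : (((s : ℂ)⁻¹) • V).det = ((s : ℂ)⁻¹) ^ (2 ^ q) * V.det := by
    rw [Matrix.det_smul, Fintype.card_fin]
  have hdet0 : (((s : ℂ)⁻¹) • V).det ≠ 0 := by
    rw [hdet]
    exact mul_ne_zero (pow_ne_zero _ (inv_ne_zero hsC)) hV0
  refine ⟨((s : ℂ)⁻¹) • V, hdet0, ?_, ?_⟩
  · rw [hdet, norm_mul, norm_pow, norm_inv, Complex.norm_real, Real.norm_of_nonneg hs0.le]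
    have h5 : ((s⁻¹) ^ (2 ^ q) * ‖V.det‖) ^ 2 ≤ 1 := by
      calc ((s⁻¹) ^ (2 ^ q) * ‖V.det‖) ^ 2 = ((s ^ 2) ^ (2 ^ q))⁻¹ * ‖V.det‖ ^ 2 := by
            rw [mul_pow, ← pow_mul, mul_comm (2 ^ q) 2, pow_mul, inv_pow, inv_pow]
        _ ≤ ((s ^ 2) ^ (2 ^ q))⁻¹ * ((6 : ℝ) * 2 ^ q) ^ (2 ^ q) := by
            apply mul_le_mul_of_nonneg_left hV1
            positivity
        _ = 1 := by
            rw [hs2]
            exact inv_mul_cancel₀ (by positivity)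
    have h6 : 0 ≤ (s⁻¹) ^ (2 ^ q) * ‖V.det‖ := by positivity
    nlinarith [h5, h6]
  · intro y hy
    have hL : V.mulVec (Lg ζ y) = hv (2 ^ q) b y := by
      funext e
      have h7 := lagr ζ hinj ((h (e : ℕ)).map (eval₂RingHom (Int.castRingHom ℂ) b)) (by
        rw [(h_monic (e : ℕ)).degree_map, degree_eq_natDegree (h_monic (e : ℕ)).ne_zero,
          h_natDegree]
        exact_mod_cast e.isLt) y
      rw [← ev_eq] at h7
      show ∑ l, V e l * Lg ζ y l = ev b y (h (e : ℕ))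
      rw [← h7]
      apply sum_congr rfl
      intro l _
      rw [← ev_eq]
      rfl
    have hT : (((s : ℂ)⁻¹) • V).mulVec ((s : ℂ) • Lg ζ y) = hv (2 ^ q) b y := by
      rw [Matrix.smul_mulVec, Matrix.mulVec_smul, smul_smul, inv_mul_cancel₀ hsC, one_smul, hL]
    have hI : (((s : ℂ)⁻¹) • V)⁻¹.mulVec (hv (2 ^ q) b y) = (s : ℂ) • Lg ζ y := by
      rw [← hT, Matrix.mulVec_mulVec, Matrix.nonsing_inv_mul _ (isUnit_iff_ne_zero.mpr hdet0),
        Matrix.one_mulVec]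
    have hb1 := hlgb b y q φ hφ hy
    have h8 : ∀ l, ‖((((s : ℂ)⁻¹) • V)⁻¹.mulVec (hv (2 ^ q) b y)) l‖ ^ 2 =
        (6 * 2 ^ q) * ‖∏ l' ∈ univ.erase l, ((y - φ l' 4) / (φ l 4 - φ l' 4))‖ ^ 2 := by
      intro l
      rw [hI, Pi.smul_apply, smul_eq_mul, norm_mul, Complex.norm_real,
        Real.norm_of_nonneg hs0.le, mul_pow, hs2]
      rfl
    rw [sum_congr rfl fun l _ => h8 l, ← mul_sum]
    calc (6 * 2 ^ q : ℝ) * ∑ l, ‖∏ l' ∈ univ.erase l, ((y - φ l' 4) / (φ l 4 - φ l' 4))‖ ^ 2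
        ≤ (6 * 2 ^ q : ℝ) * (3000 * (q + 1)) := mul_le_mul_of_nonneg_left hb1 hpos.le
      _ = 18000 * (q + 1) * 2 ^ q := by ring

end Pool.Agent.EDX.H39
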